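import Pool.Agent.Lib.MP_09a217_co.Bound

set_option autoImplicit false

/-! Explicit form of the upper bound for the number of bent functions. -/

namespace Pool.Agent.Lib.MP09a217

open Finset

/-- Geometric lower bound for the bracket. -/
lemma bracket_ge (k m t J : ℕ) (hk : 0 < k) (ht : 0 < t) (hm : k ≤ m + t) (hm2 : m ≤ 2 * k)
    (hJ : t + J ≤ k) (hJt : k ≤ J * t) (u : ℝ) (hu : ((t : ℝ) + J) / k ≤ u)
    (hu1 : u ≤ 1) :
    0.315 / u ≤ 1 + ∑ j ∈ Finset.range J,
      2 ^ j * ((m.choose (j + 1) : ℝ) / ((2 * k).choose (j + 1) : ℝ)) := by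
  have hk' : (0 : ℝ) < k := by exact_mod_cast hk
  set v : ℝ := ((t : ℝ) + J) / k with hv
  have hv0 : 0 < v := by
    have : (0 : ℝ) < t := by exact_mod_cast ht
    positivity
  have hv1 : v ≤ 1 := hu.trans hu1
  have h1 : ∀ j ∈ Finset.range J, (1 / 2 : ℝ) * (1 - v) ^ (j + 1) ≤
      2 ^ j * ((m.choose (j + 1) : ℝ) / ((2 * k).choose (j + 1) : ℝ)) := by
    intro j hj
    rw [Finset.mem_range] at hj
    have := ratio_ge k m t J hk hm hm2 hJ (j + 1) (by omega)
    rw [← hv] at this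
    have h2 : (2 : ℝ) ^ j * ((m.choose (j + 1) : ℝ) / ((2 * k).choose (j + 1) : ℝ)) =
        1 / 2 * (2 ^ (j + 1) * ((m.choose (j + 1) : ℝ) / ((2 * k).choose (j + 1) : ℝ))) := by
      rw [pow_succ]; ring
    rw [h2]
    exact mul_le_mul_of_nonneg_left this (by norm_num)
  have h2 := Finset.sum_le_sum h1
  have h3 : ∑ j ∈ Finset.range J, (1 / 2 : ℝ) * (1 - v) ^ (j + 1) =
      (1 / 2) * ((1 - v) * (1 - (1 - v) ^ J) / v) := by
    rw [← Finset.mul_sum]
    congr 1
    have h4 : ∑ j ∈ Finset.range J, (1 - v) ^ (j + 1) =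
        (1 - v) * ∑ j ∈ Finset.range J, (1 - v) ^ j := by
      rw [Finset.mul_sum]
      apply Finset.sum_congr rfl
      intro j _
      rw [pow_succ]; ring
    rw [h4]
    have h5 := mul_neg_geom_sum (1 - v) J
    have h6 : 1 - (1 - v) = v := by ring
    rw [h6] at h5
    rw [← h5]
    field_simp
  rw [h3] at h2
  -- (1 - v)^J ≤ exp(-1)
  have h4 : (1 - v) ^ J ≤ 0.37 := by
    have h5 : 1 - v ≤ Real.exp (-v) := by
      have := Real.add_one_le_exp (-v)
      linarith
    have h6 : (1 - v) ^ J ≤ Real.exp (-v) ^ J := pow_le_pow_left₀ (by linarith) h5 J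
    rw [← Real.exp_nat_mul] at h6
    have h7 : (J : ℝ) * -v ≤ -1 := by
      have h8 : (k : ℝ) ≤ J * t := by exact_mod_cast hJt
      have h9 : (1 : ℝ) ≤ J * v := by
        rw [hv, ← mul_div_assoc, le_div_iff₀ hk', one_mul]
        nlinarith [(Nat.cast_nonneg J : (0 : ℝ) ≤ J)]
      linarith
    have h8 : Real.exp ((J : ℝ) * -v) ≤ Real.exp (-1) := Real.exp_le_exp.mpr h7
    have h9 : Real.exp (-1) ≤ 0.37 := by
      rw [Real.exp_neg]
      have := Real.exp_one_gt_d9
      rw [inv_le_comm₀ (Real.exp_pos 1) (by norm_num)]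
      norm_num
      linarith
    linarith
  have h5 : 0.315 * (1 - v) / v ≤ (1 / 2) * ((1 - v) * (1 - (1 - v) ^ J) / v) := by
    rw [← mul_div_assoc, div_le_div_iff_of_pos_right hv0]
    nlinarith
  have h6 : 0.315 / u ≤ 0.315 / v := by
    apply div_le_div_of_nonneg_left (by norm_num) hv0 hu
  have h7 : 0.315 * (1 - v) / v = 0.315 / v - 0.315 := by
    field_simp
  linarith

/-- The number of bent functions in `2k` variables is at most
`2 ^ (5 * sqrt (log k / k) * 2 ^ (2k))`. -/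
theorem main_bound (k : ℕ) (hk : 2 ≤ k) :
    Real.log (BF k).card ≤ Real.log 2 * (5 * Real.sqrt (Real.log k / k) * 2 ^ (2 * k)) := by
  classical
  have hlog2 : 0 < Real.log 2 := Real.log_pos (by norm_num)
  have hk' : (2 : ℝ) ≤ k := by exact_mod_cast hk
  have hk0 : (0 : ℝ) < k := by linarith
  have hL0 : 0 < Real.log k := Real.log_pos (by linarith)
  set L := Real.log k with hL
  -- trivial bound
  have htriv : Real.log (BF k).card ≤ Real.log 2 * 2 ^ (2 * k) := by
    rcases (BF k).eq_empty_or_nonempty with hB | hB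
    · rw [hB]
      simp only [Finset.card_empty, Nat.cast_zero, Real.log_zero]
      positivity
    · have h1 : (BF k).card ≤ 2 ^ (2 ^ (2 * k)) := by
        have := Finset.card_le_univ (BF k)
        simpa [ZMod.card] using this
      have h2 : ((BF k).card : ℝ) ≤ 2 ^ (2 ^ (2 * k)) := by exact_mod_cast h1
      have h3 : (0 : ℝ) < (BF k).card := by exact_mod_cast hB.card_pos
      have h4 := Real.log_le_log h3 h2
      rw [Real.log_pow] at h4
      push_cast at h4
      linarith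
  by_cases hcase : (k : ℝ) ≤ 25 * L
  · refine htriv.trans ?_
    apply mul_le_mul_of_nonneg_left _ hlog2.le
    have h1 : 1 ≤ 5 * Real.sqrt (L / k) := by
      have h2 : (1 / 5 : ℝ) ≤ Real.sqrt (L / k) := by
        apply Real.le_sqrt_of_sq_le
        rw [le_div_iff₀ hk0]
        linarith
      linarith
    have h2 : (0 : ℝ) < 2 ^ (2 * k) := by positivity
    have h3 : 1 * (2 : ℝ) ^ (2 * k) ≤ 5 * Real.sqrt (L / k) * 2 ^ (2 * k) :=
      mul_le_mul_of_nonneg_right h1 h2.le
    linarith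
  push Not at hcase
  -- k is large
  have hlog2' : (0.6931 : ℝ) < Real.log 2 := by
    have := Real.log_two_gt_d9
    linarith
  have hk64 : (64 : ℝ) ≤ k := by
    by_contra hlt
    push Not at hlt
    have hmono : ∀ x : ℝ, 0 < x → x ≤ k → Real.log x ≤ L := fun x hx hxk =>
      Real.log_le_log hx hxk
    have hpow : ∀ i : ℕ, Real.log (2 ^ i) = i * Real.log 2 := fun i => by
      rw [Real.log_pow]
    by_cases h5 : (32 : ℝ) ≤ k
    · have := hmono (2 ^ 5) (by norm_num) (by norm_num; exact_mod_cast h5)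
      rw [hpow] at this
      push_cast at this
      linarith
    by_cases h4 : (16 : ℝ) ≤ k
    · have := hmono (2 ^ 4) (by norm_num) (by norm_num; exact_mod_cast h4)
      rw [hpow] at this
      push_cast at this
      linarith
    by_cases h3 : (4 : ℝ) ≤ k
    · have := hmono (2 ^ 2) (by norm_num) (by norm_num; exact_mod_cast h3)
      rw [hpow] at this
      push_cast at this
      linarith
    · have := hmono (2 ^ 1) (by norm_num) (by norm_num; exact_mod_cast hk')
      rw [hpow] at this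
      push_cast at this
      linarith
  have hL4 : 4 ≤ L := by
    have h1 : Real.log (2 ^ 6) ≤ L := Real.log_le_log (by norm_num) (by norm_num; exact_mod_cast hk64)
    rw [Real.log_pow] at h1
    push_cast at h1
    linarith
  set x := Real.sqrt (L / k) with hx
  have hx2 : x ^ 2 = L / k := Real.sq_sqrt (by positivity)
  have hx0 : 0 < x := Real.sqrt_pos.mpr (by positivity)
  have hLx : L = k * x ^ 2 := by rw [hx2]; field_simp
  have hx5 : x < 1 / 5 := by
    have : x ^ 2 < (1 / 5) ^ 2 := by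
      rw [hx2, div_lt_iff₀ hk0]; linarith
    exact lt_of_pow_lt_pow_left₀ 2 (by norm_num) this
  -- a = sqrt (k L / 2)
  set a := (k : ℝ) * x * Real.sqrt (1 / 2) with ha
  set r := Real.sqrt (1 / 2) with hr
  have hr2 : r ^ 2 = 1 / 2 := Real.sq_sqrt (by norm_num)
  have hr0 : 0 < r := Real.sqrt_pos.mpr (by norm_num)
  have hrlt : r < 0.7072 := by
    have : r ^ 2 < 0.7072 ^ 2 := by rw [hr2]; norm_num
    exact lt_of_pow_lt_pow_left₀ 2 (by norm_num) this
  have hrgt : 0.707 < r := by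
    have : (0.707 : ℝ) ^ 2 < r ^ 2 := by rw [hr2]; norm_num
    exact lt_of_pow_lt_pow_left₀ 2 hr0.le this
  have ha0 : 0 < a := by positivity
  have ha2 : a ^ 2 = k * L / 2 := by
    rw [ha, mul_pow, mul_pow, hr2, hLx]
    ring
  set t := ⌈a⌉₊ with ht
  have ht1 : a ≤ t := Nat.le_ceil a
  have ht2 : (t : ℝ) < a + 1 := Nat.ceil_lt_add_one ha0.le
  have htpos : 0 < t := Nat.ceil_pos.mpr ha0
  have ht0 : (0 : ℝ) < t := by exact_mod_cast htpos
  set J := ⌈(k : ℝ) / t⌉₊ with hJ
  have hJ1 : (k : ℝ) / t ≤ J := Nat.le_ceil _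
  have hJ2 : (J : ℝ) < (k : ℝ) / t + 1 := Nat.ceil_lt_add_one (by positivity)
  have hJt : k ≤ J * t := by
    have : (k : ℝ) ≤ J * t := by
      rwa [div_le_iff₀ ht0] at hJ1
    exact_mod_cast this
  -- u bound
  have hkt : (k : ℝ) / t ≤ 0.36 * x * k := by
    have h1 : (k : ℝ) / t ≤ k / a := div_le_div_of_nonneg_left hk0.le ha0 ht1
    have h2 : (k : ℝ) / a ≤ 0.36 * x * k := by
      rw [div_le_iff₀ ha0, ha]
      have h3 : (k : ℝ) * x ^ 2 ≥ 4 := by rw [← hLx]; exact hL4
      have h4 : (0.36 : ℝ) * x * k * (k * x * r) = 0.36 * r * k * (k * x ^ 2) := by ring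
      rw [h4]
      have h5 : (1 : ℝ) ≤ 0.36 * r * 4 := by linarith
      have h6 : (0 : ℝ) ≤ 0.36 * r * k := by positivity
      have h7 : 0.36 * r * k * 4 ≤ 0.36 * r * k * ((k : ℝ) * x ^ 2) :=
        mul_le_mul_of_nonneg_left h3 h6
      have h8 : (k : ℝ) * 1 ≤ k * (0.36 * r * 4) := mul_le_mul_of_nonneg_left h5 hk0.le
      linarith
    exact h1.trans h2
  have hkx : (0 : ℝ) < k * x := by positivity
  have h2k : (2 : ℝ) ≤ 0.1 * x * k := by
    have h3 : (k : ℝ) * x ^ 2 ≥ 4 := by rw [← hLx]; exact hL4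
    have h4 : (k : ℝ) * x * x ≤ k * x * (1 / 5) := mul_le_mul_of_nonneg_left hx5.le hkx.le
    linarith
  have hu : ((t : ℝ) + J) / k ≤ 1.17 * x := by
    rw [div_le_iff₀ hk0]
    have h1 : a ≤ 0.7072 * (k * x) := by
      rw [ha, mul_comm]
      exact mul_le_mul_of_nonneg_right hrlt.le hkx.le
    linarith
  have hu1 : 1.17 * x ≤ 1 := by linarith
  have htJ : t + J ≤ k := by
    have h1 : ((t : ℝ) + J) / k ≤ 1 := hu.trans hu1
    rw [div_le_one hk0] at h1
    exact_mod_cast h1
  have hk1 : 0 < k := by omega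
  have hb := bound_general k (k - t) J (by omega) (0.315 / (1.17 * x)) (by positivity) (by
    intro m hm1 hm2
    exact bracket_ge k m t J hk1 htpos (by omega) hm2 htJ hJt (1.17 * x) hu hu1)
  have htail := tail k t hk1
  have hfilter : (univ.filter fun I : Finset (Fin (2 * k)) => I.card < k - t) =
      (univ.filter fun I : Finset (Fin (2 * k)) => I.card + t < k) := by
    ext I
    simp only [Finset.mem_filter, Finset.mem_univ, true_and]
    omega
  rw [hfilter] at hb
  refine hb.trans ?_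
  apply mul_le_mul_of_nonneg_left _ hlog2.le
  have h1 : Real.exp (-((t : ℝ) ^ 2 / k)) ≤ x / 2 := by
    have h2 : L / 2 ≤ (t : ℝ) ^ 2 / k := by
      rw [le_div_iff₀ hk0]
      have : a ^ 2 ≤ (t : ℝ) ^ 2 := pow_le_pow_left₀ ha0.le ht1 2
      rw [ha2] at this
      linarith
    have h3 : Real.exp (-((t : ℝ) ^ 2 / k)) ≤ Real.exp (-(L / 2)) :=
      Real.exp_le_exp.mpr (by linarith)
    refine h3.trans ?_
    have h4 : Real.exp (-(L / 2)) ^ 2 = 1 / k := by
      rw [← Real.exp_nat_mul]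
      have : ((2 : ℕ) : ℝ) * -(L / 2) = -L := by push_cast; ring
      rw [this, Real.exp_neg, hL, Real.exp_log hk0]
      simp
    have h5 : Real.exp (-(L / 2)) ^ 2 ≤ (x / 2) ^ 2 := by
      rw [h4, div_pow, hx2]
      rw [div_le_div_iff₀ hk0 (by norm_num)]
      field_simp
      linarith
    exact le_of_sq_le_sq h5 (by positivity)
  have h2 : (2 : ℝ) ^ (2 * k) / (0.315 / (1.17 * x)) ≤ 2 ^ (2 * k) * (3.72 * x) := by
    rw [div_div_eq_mul_div, mul_div_assoc]
    apply mul_le_mul_of_nonneg_left _ (by positivity)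
    rw [div_le_iff₀ (by norm_num)]
    linarith
  have h3 : (0 : ℝ) < 2 ^ (2 * k) := by positivity
  have h4 : (2 : ℝ) ^ (2 * k) * Real.exp (-((t : ℝ) ^ 2 / k)) ≤ 2 ^ (2 * k) * (x / 2) :=
    mul_le_mul_of_nonneg_left h1 h3.le
  have h5 : (0 : ℝ) < 2 ^ (2 * k) * x := by positivity
  linarith

end Pool.Agent.Lib.MP09a217
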