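import Pool.Agent.Lib.MP_09a217_co.Chain

set_option autoImplicit false

/-! Bent functions in `n = 2k` variables: duality, derivatives and restrictions. -/

namespace Pool.Agent.Lib.MP09a217

open Finset

/-- Sign of an element of the field with two elements. -/
def sgn (z : ZMod 2) : ℤ := (-1) ^ z.val

lemma sgn_zero : sgn 0 = 1 := by simp [sgn]

lemma sgn_one : sgn 1 = -1 := by decide

lemma sgn_add : ∀ a b : ZMod 2, sgn (a + b) = sgn a * sgn b := by decide

lemma sgn_eq : ∀ a : ZMod 2, sgn a = 1 - 2 * (a.val : ℤ) := by decide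

lemma sgn_mul_self : ∀ a : ZMod 2, sgn a * sgn a = 1 := by decide

lemma sgn_inj : ∀ a b : ZMod 2, sgn a = sgn b → a = b := by decide

lemma add_self2 : ∀ a : ZMod 2, a + a = 0 := by decide

/-- Parity of a sum is determined by the sum of signs. -/
lemma parity {α : Type*} {U : Finset α} {p q : α → ZMod 2}
    (h : ∑ u ∈ U, sgn (p u) = ∑ u ∈ U, sgn (q u)) : ∑ u ∈ U, p u = ∑ u ∈ U, q u := by
  have h1 : ∀ r : α → ZMod 2, ∑ u ∈ U, sgn (r u) = U.card - 2 * ((∑ u ∈ U, (r u).val : ℕ) : ℤ) := by
    intro r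
    simp only [sgn_eq, Finset.sum_sub_distrib, ← Finset.mul_sum]
    push_cast
    simp
  have h2 : ∀ r : α → ZMod 2, ∑ u ∈ U, r u = ((∑ u ∈ U, (r u).val : ℕ) : ZMod 2) := by
    intro r
    push_cast
    apply Finset.sum_congr rfl
    intro x _
    simp
  rw [h1 p, h1 q] at h
  have h3 : (∑ u ∈ U, (p u).val : ℕ) = ∑ u ∈ U, (q u).val := by
    have : ((∑ u ∈ U, (p u).val : ℕ) : ℤ) = ((∑ u ∈ U, (q u).val : ℕ) : ℤ) := by linarith
    exact_mod_cast this
  rw [h2 p, h2 q, h3]

variable {n : ℕ}

/-- Walsh transform. -/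
def W (f : (Fin n → ZMod 2) → ZMod 2) (a : Fin n → ZMod 2) : ℤ :=
  ∑ x : Fin n → ZMod 2, sgn (f x + ∑ i, a i * x i)

/-- Bent functions. -/
def Bent (f : (Fin n → ZMod 2) → ZMod 2) : Prop := ∀ a, W f a ^ 2 = 2 ^ n

/-- Coordinate subspace: vectors supported in `S`. -/
def K (S : Finset (Fin n)) : Finset (Fin n → ZMod 2) := univ.filter fun x => ∀ i, i ∉ S → x i = 0

lemma mem_K {S : Finset (Fin n)} {x : Fin n → ZMod 2} : x ∈ K S ↔ ∀ i, i ∉ S → x i = 0 := by
  simp [K]

lemma zero_mem_K {S : Finset (Fin n)} : (0 : Fin n → ZMod 2) ∈ K S := by simp [mem_K]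

lemma add_mem_K {S : Finset (Fin n)} {x y : Fin n → ZMod 2} (hx : x ∈ K S) (hy : y ∈ K S) :
    x + y ∈ K S := by
  rw [mem_K] at *
  intro i hi
  simp [hx i hi, hy i hi]

/-- Coordinate vector. -/
def ev (i : Fin n) : Fin n → ZMod 2 := Pi.single i 1

lemma ev_same (i : Fin n) : ev i i = 1 := by simp [ev]

lemma ev_ne {i j : Fin n} (h : j ≠ i) : ev i j = 0 := by simp [ev, h]

lemma single_mem_K {S : Finset (Fin n)} {i : Fin n} (hi : i ∈ S) : ev i ∈ K S := by
  rw [mem_K]
  intro j hj
  have : j ≠ i := fun h => hj (h ▸ hi)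
  exact ev_ne this

lemma add_self_vec (x : Fin n → ZMod 2) : x + x = 0 := by
  funext i; simp [add_self2]

lemma add_add_cancel_vec (x y : Fin n → ZMod 2) : x + y + y = x := by
  rw [add_assoc, add_self_vec, add_zero]

/-- Character sum over a coordinate subspace. -/
lemma char_sum {S : Finset (Fin n)} (z : Fin n → ZMod 2) :
    ∑ u ∈ K S, sgn (∑ i, u i * z i) = if ∀ i ∈ S, z i = 0 then ((K S).card : ℤ) else 0 := by
  classical
  split_ifs with h
  · have : ∀ u ∈ K S, sgn (∑ i, u i * z i) = 1 := by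
      intro u hu
      rw [mem_K] at hu
      have : ∑ i, u i * z i = 0 := by
        apply Finset.sum_eq_zero
        intro i _
        by_cases hi : i ∈ S
        · simp [h i hi]
        · simp [hu i hi]
      rw [this, sgn_zero]
    rw [Finset.sum_congr rfl this]
    simp
  · push Not at h
    obtain ⟨i, hi, hz⟩ := h
    have hz1 : z i = 1 := by
      have : ∀ t : ZMod 2, t ≠ 0 → t = 1 := by decide
      exact this _ hz
    have h1 : ∑ u ∈ K S, sgn (∑ j, u j * z j) =
        ∑ u ∈ K S, sgn (∑ j, (u + ev i) j * z j) := by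
      apply Finset.sum_bij' (fun u _ => u + ev i) (fun u _ => u + ev i)
      · intro u hu
        exact add_mem_K hu (single_mem_K hi)
      · intro u hu
        exact add_mem_K hu (single_mem_K hi)
      · intro u _
        exact add_add_cancel_vec _ _
      · intro u _
        exact add_add_cancel_vec _ _
      · intro u _
        rw [add_add_cancel_vec]
    have h2 : ∀ u : Fin n → ZMod 2, sgn (∑ j, (u + ev i) j * z j) =
        - sgn (∑ j, u j * z j) := by
      intro u
      have : ∑ j, (u + ev i) j * z j = (∑ j, u j * z j) + 1 := by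
        simp only [Pi.add_apply, add_mul, Finset.sum_add_distrib]
        congr 1
        rw [Finset.sum_eq_single i]
        · rw [ev_same, hz1, mul_one]
        · intro j _ hj
          rw [ev_ne hj, zero_mul]
        · simp
      rw [this, sgn_add, sgn_one]
      ring
    simp only [h2, Finset.sum_neg_distrib] at h1
    linarith

/-- Poisson summation for the flat `{x : x i = a i for i in S}`. -/
lemma poisson (f : (Fin n → ZMod 2) → ZMod 2) (S : Finset (Fin n)) (a y : Fin n → ZMod 2) :
    ∑ u ∈ K S, sgn (∑ i, u i * a i) * W f (y + u) =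
      (K S).card * ∑ x : Fin n → ZMod 2, if (∀ i ∈ S, x i = a i) then
        sgn (f x + ∑ i, y i * x i) else 0 := by
  classical
  have h1 : ∀ u ∈ K S, sgn (∑ i, u i * a i) * W f (y + u) =
      ∑ x : Fin n → ZMod 2, sgn (f x + ∑ i, y i * x i) * sgn (∑ i, u i * (a + x) i) := by
    intro u _
    rw [W, Finset.mul_sum]
    apply Finset.sum_congr rfl
    intro x _
    rw [← sgn_add, ← sgn_add]
    congr 1
    simp only [Pi.add_apply, add_mul, mul_add, Finset.sum_add_distrib]
    ring
  rw [Finset.sum_congr rfl h1, Finset.sum_comm, Finset.mul_sum]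
  apply Finset.sum_congr rfl
  intro x _
  rw [← Finset.mul_sum, char_sum]
  have h2 : (∀ i ∈ S, (a + x) i = 0) ↔ (∀ i ∈ S, x i = a i) := by
    constructor
    · intro h i hi
      have h3 := h i hi
      have : ∀ s t : ZMod 2, s + t = 0 → t = s := by decide
      exact this _ _ h3
    · intro h i hi
      simp [h i hi, add_self2]
  by_cases h3 : ∀ i ∈ S, x i = a i
  · rw [if_pos h3, if_pos (h2.mpr h3)]
    ring
  · rw [if_neg h3, if_neg (fun h => h3 (h2.mp h))]
    ring

/-- Dual of a bent function. -/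
def dual (f : (Fin n → ZMod 2) → ZMod 2) (y : Fin n → ZMod 2) : ZMod 2 :=
  if 0 ≤ W f y then 0 else 1

lemma W_eq {k : ℕ} {f : (Fin (2 * k) → ZMod 2) → ZMod 2} (hf : Bent f)
    (y : Fin (2 * k) → ZMod 2) : W f y = 2 ^ k * sgn (dual f y) := by
  have h1 : W f y ^ 2 = (2 ^ k : ℤ) ^ 2 := by
    rw [hf y]; ring
  rcases sq_eq_sq_iff_eq_or_eq_neg.mp h1 with h | h
  · have : 0 ≤ W f y := by rw [h]; positivity
    rw [dual, if_pos this, h, sgn_zero, mul_one]
  · have : ¬ 0 ≤ W f y := by
      rw [h]
      have : (0 : ℤ) < 2 ^ k := by positivity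
      linarith
    rw [dual, if_neg this, h, sgn_one]
    ring

lemma K_univ_card : ((K (univ : Finset (Fin n))).card : ℤ) = 2 ^ n := by
  have : K (univ : Finset (Fin n)) = univ := by
    ext x
    simp [mem_K]
  rw [this, Finset.card_univ]
  simp [ZMod.card]

lemma W_dual {k : ℕ} {f : (Fin (2 * k) → ZMod 2) → ZMod 2} (hf : Bent f)
    (a : Fin (2 * k) → ZMod 2) : W (dual f) a = 2 ^ k * sgn (f a) := by
  classical
  have h := poisson f univ a 0
  have hK : K (univ : Finset (Fin (2 * k))) = univ := by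
    ext x
    simp [mem_K]
  rw [K_univ_card, hK] at h
  have h1 : ∑ x : Fin (2 * k) → ZMod 2, (if (∀ i ∈ (univ : Finset (Fin (2 * k))), x i = a i) then
        sgn (f x + ∑ i, (0 : Fin (2 * k) → ZMod 2) i * x i) else 0) = sgn (f a) := by
    rw [Finset.sum_eq_single a]
    · simp
    · intro b _ hb
      rw [if_neg]
      intro h
      apply hb
      funext i
      exact h i (Finset.mem_univ i)
    · simp
  rw [h1] at h
  have h2 : ∑ u : Fin (2 * k) → ZMod 2, sgn (∑ i, u i * a i) * W f (0 + u) =
      2 ^ k * W (dual f) a := by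
    rw [W, Finset.mul_sum]
    apply Finset.sum_congr rfl
    intro u _
    rw [zero_add, W_eq hf, sgn_add]
    have : ∑ i, a i * u i = ∑ i, u i * a i := by
      apply Finset.sum_congr rfl
      intro i _
      ring
    rw [this]
    ring
  rw [h2] at h
  have h3 : (2 : ℤ) ^ k ≠ 0 := by positivity
  apply mul_left_cancel₀ h3
  rw [h]
  ring

lemma bent_dual {k : ℕ} {f : (Fin (2 * k) → ZMod 2) → ZMod 2} (hf : Bent f) :
    Bent (dual f) := by
  intro a
  rw [W_dual hf, mul_pow]
  have : sgn (f a) ^ 2 = 1 := by rw [pow_two, sgn_mul_self]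
  rw [this]
  ring

lemma dual_inj {k : ℕ} {f g : (Fin (2 * k) → ZMod 2) → ZMod 2} (hf : Bent f) (hg : Bent g)
    (h : dual f = dual g) : f = g := by
  funext a
  have h1 := W_dual hf a
  have h2 := W_dual hg a
  rw [h] at h1
  rw [h1] at h2
  apply sgn_inj
  have h3 : (2 : ℤ) ^ k ≠ 0 := by positivity
  exact mul_left_cancel₀ h3 h2

/-- The derivative of `f` along the coordinate subspace `K S`. -/
def D (S : Finset (Fin n)) (f : (Fin n → ZMod 2) → ZMod 2) (x : Fin n → ZMod 2) : ZMod 2 :=
  ∑ u ∈ K S, f (x + u)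

/-- The restriction of `f` to the flat `{x : x i = a i for i in S}`. -/
def Rs (S : Finset (Fin n)) (a : Fin n → ZMod 2) (f : (Fin n → ZMod 2) → ZMod 2)
    (x : Fin n → ZMod 2) : ZMod 2 :=
  if ∀ i ∈ S, x i = a i then f x else 0

lemma Rs_eq_iff {S : Finset (Fin n)} {a : Fin n → ZMod 2} {f g : (Fin n → ZMod 2) → ZMod 2} :
    Rs S a f = Rs S a g ↔ ∀ x, (∀ i ∈ S, x i = a i) → f x = g x := by
  constructor
  · intro h x hx
    have := congrFun h x
    simpa only [Rs, if_pos hx] using this
  · intro h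
    funext x
    by_cases hx : ∀ i ∈ S, x i = a i
    · simp only [Rs, if_pos hx, h x hx]
    · simp only [Rs, if_neg hx]

/-- A restriction determines the derivative of the dual. -/
lemma det_dual {k : ℕ} {f g : (Fin (2 * k) → ZMod 2) → ZMod 2} (hf : Bent f) (hg : Bent g)
    {S : Finset (Fin (2 * k))} {a : Fin (2 * k) → ZMod 2} (h : Rs S a f = Rs S a g) :
    D S (dual f) = D S (dual g) := by
  classical
  funext y
  rw [Rs_eq_iff] at h
  have hp := poisson f S a y
  have hq := poisson g S a y
  have h1 : (∑ x : Fin (2 * k) → ZMod 2, if (∀ i ∈ S, x i = a i) then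
        sgn (f x + ∑ i, y i * x i) else 0) = ∑ x : Fin (2 * k) → ZMod 2,
        if (∀ i ∈ S, x i = a i) then sgn (g x + ∑ i, y i * x i) else 0 := by
    apply Finset.sum_congr rfl
    intro x _
    by_cases hx : ∀ i ∈ S, x i = a i
    · rw [if_pos hx, if_pos hx, h x hx]
    · rw [if_neg hx, if_neg hx]
  rw [h1, ← hq] at hp
  have h2 : ∀ r : (Fin (2 * k) → ZMod 2) → ZMod 2, Bent r →
      ∑ u ∈ K S, sgn (∑ i, u i * a i) * W r (y + u) =
      2 ^ k * ∑ u ∈ K S, sgn ((∑ i, u i * a i) + dual r (y + u)) := by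
    intro r hr
    rw [Finset.mul_sum]
    apply Finset.sum_congr rfl
    intro u _
    rw [W_eq hr, sgn_add]
    ring
  rw [h2 f hf, h2 g hg] at hp
  have h3 : (2 : ℤ) ^ k ≠ 0 := by positivity
  have h4 := parity (mul_left_cancel₀ h3 hp)
  simp only [Finset.sum_add_distrib] at h4
  exact add_left_cancel h4

/-- The set of bent functions in `2k` variables. -/
noncomputable def BF (k : ℕ) : Finset ((Fin (2 * k) → ZMod 2) → ZMod 2) := by
  classical exact univ.filter Bent

lemma mem_BF {k : ℕ} {f : (Fin (2 * k) → ZMod 2) → ZMod 2} : f ∈ BF k ↔ Bent f := by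
  classical
  simp [BF]

lemma ent_D_dual {k : ℕ} {S : Finset (Fin (2 * k))} :
    ent (BF k) (fun f => D S (dual f)) = ent (BF k) (D S) := by
  apply ent_comp (X := D S) (σ := dual)
  · intro f hf
    rw [mem_BF] at *
    exact bent_dual hf
  · intro f hf g hg h
    rw [mem_BF] at *
    exact dual_inj hf hg h

/-- Translation of a function. -/
def trans (a : Fin n → ZMod 2) (f : (Fin n → ZMod 2) → ZMod 2) (x : Fin n → ZMod 2) : ZMod 2 :=
  f (x + a)

lemma W_trans (a y : Fin n → ZMod 2) (f : (Fin n → ZMod 2) → ZMod 2) :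
    W (trans a f) y = sgn (∑ i, y i * a i) * W f y := by
  unfold W
  rw [Finset.mul_sum]
  apply Finset.sum_bij' (fun x _ => x + a) (fun x _ => x + a)
  · intro x _; simp
  · intro x _; simp
  · intro x _; exact add_add_cancel_vec _ _
  · intro x _; exact add_add_cancel_vec _ _
  · intro x _
    rw [← sgn_add]
    congr 1
    unfold trans
    simp only [Pi.add_apply, mul_add, Finset.sum_add_distrib]
    have : ∀ s t r : ZMod 2, s + t = r + (s + (t + r)) := by decide
    exact this _ _ _

lemma bent_trans {a : Fin n → ZMod 2} {f : (Fin n → ZMod 2) → ZMod 2} (hf : Bent f) :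
    Bent (trans a f) := by
  intro y
  rw [W_trans, mul_pow, hf y]
  have : ∀ z : ZMod 2, sgn z ^ 2 = 1 := by decide
  rw [this, one_mul]

lemma ent_Rs_trans {k : ℕ} {S : Finset (Fin (2 * k))} {a : Fin (2 * k) → ZMod 2} :
    ent (BF k) (Rs S a) = ent (BF k) (Rs S 0) := by
  have h : ent (BF k) (fun f => Rs S 0 (trans a f)) = ent (BF k) (Rs S 0) := by
    apply ent_comp (X := Rs S 0) (σ := trans a)
    · intro f hf
      rw [mem_BF] at *
      exact bent_trans hf
    · intro f _ g _ h
      funext x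
      have := congrFun h (x + a)
      simpa [trans, add_add_cancel_vec] using this
  rw [← h]
  have key : ∀ f g : (Fin (2 * k) → ZMod 2) → ZMod 2,
      Rs S a f = Rs S a g ↔ Rs S 0 (trans a f) = Rs S 0 (trans a g) := by
    intro f g
    rw [Rs_eq_iff, Rs_eq_iff]
    constructor
    · intro h x hx
      apply h
      intro i hi
      simp [hx i hi]
    · intro h x hx
      have h1 := h (x + a) (by
        intro i hi
        simp [hx i hi, add_self2])
      simpa [trans, add_add_cancel_vec] using h1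
  apply ent_congr
  · intro f _ g _ hh
    exact (key f g).mp hh
  · intro f _ g _ hh
    exact (key f g).mpr hh

/-- The main inequality: restricting to one more coordinate. -/
lemma ent_step {k : ℕ} {S : Finset (Fin (2 * k))} {i : Fin (2 * k)} (hi : i ∉ S) :
    ent (BF k) (Rs S 0) + ent (BF k) (D (insert i S)) ≤ 2 * ent (BF k) (Rs (insert i S) 0) := by
  classical
  set S' := insert i S with hS'
  have h := ent_submod (B := BF k) (X := Rs S' 0) (Y := Rs S' (ev i))
    (Z := fun f => D S' (dual f))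
    (fun f hf g hg hh => det_dual (mem_BF.mp hf) (mem_BF.mp hg) hh)
    (fun f hf g hg hh => det_dual (mem_BF.mp hf) (mem_BF.mp hg) hh)
  rw [ent_Rs_trans (a := ev i), ent_D_dual] at h
  have h2 : ent (BF k) (Rs S 0) ≤
      ent (BF k) (fun f => (Rs S' 0 f, Rs S' (ev i) f)) := by
    apply ent_mono
    intro f _ g _ hh
    simp only [Prod.mk.injEq, Rs_eq_iff] at hh
    rw [Rs_eq_iff]
    intro x hx
    have hxi : x i = 0 ∨ x i = 1 := by
      have : ∀ t : ZMod 2, t = 0 ∨ t = 1 := by decide
      exact this _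
    rcases hxi with h0 | h0
    · apply hh.1
      intro j hj
      rcases Finset.mem_insert.mp hj with rfl | hj
      · simpa using h0
      · exact hx j hj
    · apply hh.2
      intro j hj
      rcases Finset.mem_insert.mp hj with rfl | hj
      · rw [ev_same]; exact h0
      · have : j ≠ i := fun h => hi (h ▸ hj)
        rw [hx j hj, ev_ne this]
        rfl
  linarith

end Pool.Agent.Lib.MP09a217
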