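import Pool.Agent.Lib.MP_09a217_co.Core

set_option autoImplicit false

/-! The upper bound for the number of bent functions. -/

namespace Pool.Agent.Lib.MP09a217

open Finset

/-- The general bound: a threshold `s` and a number `J` of derivatives. -/
theorem bound_general (k s J : ℕ) (hJ : J ≤ 2 * k) (g : ℝ) (hg0 : 0 < g)
    (hg : ∀ m, s ≤ m → m ≤ 2 * k →
      g ≤ 1 + ∑ j ∈ Finset.range J, 2 ^ j * ((m.choose (j + 1) : ℝ) / ((2 * k).choose (j + 1) : ℝ))) :
    Real.log (BF k).card ≤ Real.log 2 *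
      (((univ.filter fun I : Finset (Fin (2 * k)) => I.card < s).card : ℝ) + 2 ^ (2 * k) / g) := by
  classical
  have hlog2 : 0 < Real.log 2 := Real.log_pos (by norm_num)
  rcases (BF k).eq_empty_or_nonempty with hB | hB
  · rw [hB]
    simp only [Finset.card_empty, Nat.cast_zero, Real.log_zero]
    positivity
  obtain ⟨w, hw1, hw2, hw3⟩ := weights hB
  have hw0 : ∀ I, 0 ≤ w I := fun I => (hw1 I).1
  have hwle : ∀ I, w I ≤ Real.log 2 := fun I => (hw1 I).2.trans (ent_sub_singleton_le hB)
  -- the chain inequality with all 2k steps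
  have hchain := ee_chain (k := k) (2 * k) le_rfl
  rw [ee_zero hB] at hchain
  have hlast := ee_last hB
  have hdd : ∀ j, 0 ≤ dd k j := fun j => ent_nonneg
  have h1 : Real.log (BF k).card + ∑ j ∈ Finset.range J, 2 ^ j * dd k (j + 1) ≤
      2 ^ (2 * k) * Real.log 2 := by
    have h2 : ∑ j ∈ Finset.range J, 2 ^ j * dd k (j + 1) ≤
        ∑ j ∈ Finset.range (2 * k), 2 ^ j * dd k (j + 1) := by
      apply Finset.sum_le_sum_of_subset_of_nonneg
      · intro x hx
        rw [Finset.mem_range] at *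
        omega
      · intro j _ _
        exact mul_nonneg (by positivity) (hdd _)
    have h3 : (2 : ℝ) ^ (2 * k) * ee k (2 * k) ≤ 2 ^ (2 * k) * Real.log 2 :=
      mul_le_mul_of_nonneg_left hlast (by positivity)
    linarith
  have h2 : ∑ I, w I * (1 + ∑ j ∈ Finset.range J,
      2 ^ j * ((I.card.choose (j + 1) : ℝ) / ((2 * k).choose (j + 1) : ℝ))) ≤
      2 ^ (2 * k) * Real.log 2 := by
    refine le_trans ?_ h1
    have h3 : ∑ I, w I * (1 + ∑ j ∈ Finset.range J,
        2 ^ j * ((I.card.choose (j + 1) : ℝ) / ((2 * k).choose (j + 1) : ℝ))) =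
        ∑ I, w I + ∑ j ∈ Finset.range J, 2 ^ j *
          ∑ I, w I * ((I.card.choose (j + 1) : ℝ) / ((2 * k).choose (j + 1) : ℝ)) := by
      simp only [mul_add, mul_one, Finset.sum_add_distrib, Finset.mul_sum]
      congr 1
      rw [Finset.sum_comm]
      apply Finset.sum_congr rfl
      intro j _
      apply Finset.sum_congr rfl
      intro I _
      ring
    rw [h3, hw2]
    gcongr with j hj
    rw [Finset.mem_range] at hj
    exact hw3 (j + 1) (by omega)
  -- split at the threshold
  have h3 : ∑ I ∈ univ.filter (fun I : Finset (Fin (2 * k)) => ¬ I.card < s), w I * g ≤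
      2 ^ (2 * k) * Real.log 2 := by
    refine le_trans ?_ h2
    have h4 : ∑ I ∈ univ.filter (fun I : Finset (Fin (2 * k)) => ¬ I.card < s), w I * g ≤
        ∑ I ∈ univ.filter (fun I : Finset (Fin (2 * k)) => ¬ I.card < s),
        w I * (1 + ∑ j ∈ Finset.range J,
          2 ^ j * ((I.card.choose (j + 1) : ℝ) / ((2 * k).choose (j + 1) : ℝ))) := by
      apply Finset.sum_le_sum
      intro I hI
      apply mul_le_mul_of_nonneg_left _ (hw0 I)
      apply hg
      · have := (Finset.mem_filter.mp hI).2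
        omega
      · have := Finset.card_le_univ I
        simpa using this
    refine h4.trans ?_
    apply Finset.sum_le_sum_of_subset_of_nonneg (Finset.filter_subset _ _)
    intro I _ _
    apply mul_nonneg (hw0 I)
    positivity
  have h4 : ∑ I ∈ univ.filter (fun I : Finset (Fin (2 * k)) => I.card < s), w I ≤
      ((univ.filter fun I : Finset (Fin (2 * k)) => I.card < s).card : ℝ) * Real.log 2 := by
    rw [← nsmul_eq_mul]
    apply Finset.sum_le_card_nsmul
    intro I _
    exact hwle I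
  have h5 := Finset.sum_filter_add_sum_filter_not (univ : Finset (Finset (Fin (2 * k))))
    (fun I => I.card < s) w
  rw [hw2] at h5
  rw [← Finset.sum_mul] at h3
  have h6 : ∑ I ∈ univ.filter (fun I : Finset (Fin (2 * k)) => ¬ I.card < s), w I ≤
      2 ^ (2 * k) * Real.log 2 / g := by
    rw [le_div_iff₀ hg0]
    exact h3
  rw [← h5, mul_add]
  have h7 : Real.log 2 * (2 ^ (2 * k) / g) = 2 ^ (2 * k) * Real.log 2 / g := by ring
  rw [h7, mul_comm (Real.log 2)]
  linarith

/-- Tail of the binomial distribution. -/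
lemma tail (k t : ℕ) (hk : 0 < k) :
    ((univ.filter fun I : Finset (Fin (2 * k)) => I.card + t < k).card : ℝ) ≤
      2 ^ (2 * k) * Real.exp (-((t : ℝ) ^ 2 / k)) := by
  classical
  have hk' : (0 : ℝ) < k := by exact_mod_cast hk
  set lam : ℝ := 2 * t / k with hlam
  have hlam0 : 0 ≤ lam := by positivity
  have h1 : ∑ I : Finset (Fin (2 * k)), Real.exp (lam * ((k : ℝ) - I.card)) =
      (2 * Real.cosh (lam / 2)) ^ (2 * k) := by
    have h2 := Finset.sum_pow_mul_eq_add_pow (Real.exp (-(lam / 2))) (Real.exp (lam / 2))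
      (univ : Finset (Fin (2 * k)))
    rw [Finset.card_univ, Fintype.card_fin, Finset.powerset_univ] at h2
    have h3 : Real.exp (-(lam / 2)) + Real.exp (lam / 2) = 2 * Real.cosh (lam / 2) := by
      rw [Real.cosh_eq]; ring
    rw [← h3, ← h2]
    apply Finset.sum_congr rfl
    intro I _
    rw [← Real.exp_nat_mul, ← Real.exp_nat_mul, ← Real.exp_add]
    congr 1
    have h4 : I.card ≤ 2 * k := by simpa using Finset.card_le_univ I
    rw [Nat.cast_sub h4]
    push_cast
    ring
  have h2 : (2 * Real.cosh (lam / 2)) ^ (2 * k) ≤ 2 ^ (2 * k) * Real.exp ((t : ℝ) ^ 2 / k) := by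
    rw [mul_pow]
    apply mul_le_mul_of_nonneg_left _ (by positivity)
    have h3 := Real.cosh_le_exp_half_sq (lam / 2)
    calc Real.cosh (lam / 2) ^ (2 * k) ≤ Real.exp ((lam / 2) ^ 2 / 2) ^ (2 * k) := by
          gcongr
      _ = Real.exp ((t : ℝ) ^ 2 / k) := by
          rw [← Real.exp_nat_mul]
          congr 1
          rw [hlam]
          push_cast
          field_simp
  have h3 : ((univ.filter fun I : Finset (Fin (2 * k)) => I.card + t < k).card : ℝ) *
      Real.exp (2 * (t : ℝ) ^ 2 / k) ≤ ∑ I : Finset (Fin (2 * k)),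
        Real.exp (lam * ((k : ℝ) - I.card)) := by
    rw [← nsmul_eq_mul]
    refine le_trans (Finset.card_nsmul_le_sum _ (fun I => Real.exp (lam * ((k : ℝ) - I.card)))
      _ ?_) ?_
    · intro I hI
      have h4 := (Finset.mem_filter.mp hI).2
      apply Real.exp_le_exp.mpr
      have h5 : (I.card : ℝ) + t ≤ k := by exact_mod_cast h4.le
      have h6 : (t : ℝ) ≤ k - I.card := by linarith
      calc 2 * (t : ℝ) ^ 2 / k = lam * t := by rw [hlam]; ring
        _ ≤ lam * (k - I.card) := mul_le_mul_of_nonneg_left h6 hlam0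
    · apply Finset.sum_le_sum_of_subset_of_nonneg (Finset.filter_subset _ _)
      intro I _ _
      exact (Real.exp_pos _).le
  rw [h1] at h3
  have h4 := h3.trans h2
  have h5 : Real.exp (2 * (t : ℝ) ^ 2 / k) = Real.exp ((t : ℝ) ^ 2 / k) * Real.exp ((t : ℝ) ^ 2 / k) := by
    rw [← Real.exp_add]; congr 1; ring
  rw [h5, ← mul_assoc] at h4
  have h6 := le_of_mul_le_mul_right h4 (Real.exp_pos _)
  rw [Real.exp_neg, ← div_eq_mul_inv, le_div_iff₀ (Real.exp_pos _)]
  exact h6

/-- Lower bound for the ratio of binomial coefficients. -/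
lemma ratio_ge (k m t J : ℕ) (hk : 0 < k) (hm : k ≤ m + t) (hm2 : m ≤ 2 * k)
    (hJ : t + J ≤ k) :
    ∀ j, j ≤ J → (1 - ((t : ℝ) + J) / k) ^ j ≤
      2 ^ j * ((m.choose j : ℝ) / ((2 * k).choose j : ℝ)) := by
  have hk' : (0 : ℝ) < k := by exact_mod_cast hk
  have hq0 : 0 ≤ 1 - ((t : ℝ) + J) / k := by
    have : ((t : ℝ) + J) / k ≤ 1 := by
      rw [div_le_one hk']
      exact_mod_cast hJ
    linarith
  intro j
  induction j with
  | zero => intro _; simp
  | succ j ih =>
    intro hj
    have h1 := ih (by omega)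
    have hjm : j ≤ m := by omega
    have hj2 : j < 2 * k := by omega
    have h2 : (m.choose (j + 1) : ℝ) * (j + 1) = m.choose j * ((m : ℝ) - j) := by
      have := Nat.choose_succ_right_eq m j
      have h3 : ((m.choose (j + 1) * (j + 1) : ℕ) : ℝ) = ((m.choose j * (m - j) : ℕ) : ℝ) := by
        rw [this]
      push_cast [Nat.cast_sub hjm] at h3
      exact h3
    have h3 : ((2 * k).choose (j + 1) : ℝ) * (j + 1) = (2 * k).choose j * (2 * (k : ℝ) - j) := by
      have := Nat.choose_succ_right_eq (2 * k) j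
      have h3 : (((2 * k).choose (j + 1) * (j + 1) : ℕ) : ℝ) =
          (((2 * k).choose j * (2 * k - j) : ℕ) : ℝ) := by
        rw [this]
      push_cast [Nat.cast_sub hj2.le] at h3
      exact h3
    have hj1 : (0 : ℝ) < (j : ℝ) + 1 := by positivity
    have hc1 : (0 : ℝ) < ((2 * k).choose j : ℝ) := by exact_mod_cast Nat.choose_pos hj2.le
    have hd : (0 : ℝ) < 2 * (k : ℝ) - j := by
      have : (j : ℝ) < 2 * k := by exact_mod_cast hj2
      linarith
    have h4 : (m.choose (j + 1) : ℝ) / ((2 * k).choose (j + 1) : ℝ) =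
        (m.choose j : ℝ) / ((2 * k).choose j : ℝ) * (((m : ℝ) - j) / (2 * (k : ℝ) - j)) := by
      have e1 : (m.choose (j + 1) : ℝ) = m.choose j * ((m : ℝ) - j) / (j + 1) := by
        rw [eq_div_iff hj1.ne']; exact h2
      have e2 : ((2 * k).choose (j + 1) : ℝ) = (2 * k).choose j * (2 * (k : ℝ) - j) / (j + 1) := by
        rw [eq_div_iff hj1.ne']; exact h3
      rw [e1, e2]
      field_simp
    rw [h4, pow_succ, pow_succ]
    have h5 : 1 - ((t : ℝ) + J) / k ≤ 2 * (((m : ℝ) - j) / (2 * (k : ℝ) - j)) := by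
      have h6 : (k : ℝ) - t - j ≤ (m : ℝ) - j := by
        have : (k : ℝ) ≤ m + t := by exact_mod_cast hm
        linarith
      have h7 : (0 : ℝ) ≤ (k : ℝ) - t - j := by
        have : (t : ℝ) + J ≤ k := by exact_mod_cast hJ
        have h8 : (j : ℝ) ≤ J := by exact_mod_cast (by omega : j ≤ J)
        linarith
      have h8 : (j : ℝ) ≤ J := by exact_mod_cast (by omega : j ≤ J)
      calc 1 - ((t : ℝ) + J) / k ≤ ((k : ℝ) - t - j) / k := by
            rw [le_div_iff₀ hk', sub_mul, div_mul_cancel₀ _ hk'.ne']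
            linarith
        _ ≤ ((m : ℝ) - j) / k := by gcongr
        _ = 2 * (((m : ℝ) - j) / (2 * k)) := by field_simp
        _ ≤ 2 * (((m : ℝ) - j) / (2 * (k : ℝ) - j)) := by
            have : (0 : ℝ) ≤ (m : ℝ) - j := by linarith
            gcongr
            linarith [(Nat.cast_nonneg j : (0 : ℝ) ≤ j)]
    calc (1 - ((t : ℝ) + J) / k) ^ j * (1 - ((t : ℝ) + J) / k)
        ≤ (2 ^ j * ((m.choose j : ℝ) / ((2 * k).choose j : ℝ))) *
          (2 * (((m : ℝ) - j) / (2 * (k : ℝ) - j))) := by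
          apply mul_le_mul h1 h5 hq0
          positivity
      _ = _ := by ring

end Pool.Agent.Lib.MP09a217
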