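import Pool.Agent.Lib.MP_09a217_co.Ent

set_option autoImplicit false

/-! The chain rule: a weight on the coordinates which is a lower bound of all entropies. -/

namespace Pool.Agent.Lib.MP09a217

open Finset

variable {Ω ι : Type*} [DecidableEq ι]

/-- The coordinates of `c` in `U`, as one variable. -/
def sub (c : ι → Ω → ZMod 2) (U : Finset ι) (ω : Ω) : ι → ZMod 2 :=
  fun i => if i ∈ U then c i ω else 0

lemma sub_eq_iff {c : ι → Ω → ZMod 2} {U : Finset ι} {ω ω' : Ω} :
    sub c U ω = sub c U ω' ↔ ∀ i ∈ U, c i ω = c i ω' := by
  constructor
  · intro h i hi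
    have := congrFun h i
    simpa [sub, hi] using this
  · intro h
    funext i
    by_cases hi : i ∈ U
    · simp [sub, hi, h i hi]
    · simp [sub, hi]

lemma det_sub {c : ι → Ω → ZMod 2} {U V : Finset ι} {B : Finset Ω} (h : V ⊆ U) :
    Det B (sub c U) (sub c V) := by
  intro ω _ ω' _ hh
  rw [sub_eq_iff] at hh ⊢
  intro i hi
  exact hh i (h hi)

lemma sub_submod {c : ι → Ω → ZMod 2} {U V : Finset ι} {B : Finset Ω} :
    ent B (sub c (U ∪ V)) + ent B (sub c (U ∩ V)) ≤ ent B (sub c U) + ent B (sub c V) := by
  have h := ent_submod (B := B) (X := sub c U) (Y := sub c V) (Z := sub c (U ∩ V))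
    (det_sub Finset.inter_subset_left) (det_sub Finset.inter_subset_right)
  have h2 : ent B (fun ω => (sub c U ω, sub c V ω)) = ent B (sub c (U ∪ V)) := by
    apply ent_congr
    · intro ω _ ω' _ hh
      simp only [Prod.mk.injEq, sub_eq_iff] at hh
      rw [sub_eq_iff]
      intro i hi
      rcases Finset.mem_union.mp hi with hi | hi
      · exact hh.1 i hi
      · exact hh.2 i hi
    · intro ω _ ω' _ hh
      rw [sub_eq_iff] at hh
      simp only [Prod.mk.injEq, sub_eq_iff]
      exact ⟨fun i hi => hh i (Finset.mem_union_left _ hi),
        fun i hi => hh i (Finset.mem_union_right _ hi)⟩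
  rw [h2] at h
  exact h

lemma ent_sub_singleton_le {c : ι → Ω → ZMod 2} {i : ι} {B : Finset Ω} (hB : B.Nonempty) :
    ent B (sub c {i}) ≤ Real.log 2 := by
  have h := ent_le_log_card (B := B) hB (X := c i)
  have h2 : ent B (sub c {i}) ≤ ent B (c i) := by
    apply ent_mono
    intro ω _ ω' _ hh
    rw [sub_eq_iff]
    intro j hj
    rw [Finset.mem_singleton] at hj
    rw [hj, hh]
  have h3 : (Fintype.card (ZMod 2) : ℝ) = 2 := by simp [ZMod.card]
  rw [h3] at h
  exact h2.trans h

lemma ent_sub_empty {c : ι → Ω → ZMod 2} {B : Finset Ω} : ent B (sub c ∅) = 0 := by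
  rcases B.eq_empty_or_nonempty with rfl | hB
  · simp [ent]
  · apply le_antisymm _ ent_nonneg
    have : ent B (sub c ∅) ≤ ent B (fun _ => ()) := by
      apply ent_mono
      intro ω _ ω' _ _
      rw [sub_eq_iff]
      simp
    have h2 := ent_le_log_card (B := B) hB (X := fun _ => ())
    simp at h2
    linarith

/-- For every finite set `A` of coordinates there are weights in `[0, log 2]` with total
`H(A)` such that the weight of every subset of `A` is at most its entropy. If a coordinate
is constant on `B`, its weight is `0`. -/
lemma exists_weight (c : ι → Ω → ZMod 2) {B : Finset Ω} (hB : B.Nonempty) (A : Finset ι) :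
    ∃ w : ι → ℝ, (∀ i, 0 ≤ w i ∧ w i ≤ ent B (sub c {i})) ∧ ∑ i ∈ A, w i = ent B (sub c A) ∧
      ∀ U ⊆ A, ∑ i ∈ U, w i ≤ ent B (sub c U) := by
  induction A using Finset.induction_on with
  | empty =>
    refine ⟨fun _ => 0, fun i => ⟨le_rfl, ent_nonneg⟩, ?_, ?_⟩
    · simp [ent_sub_empty]
    · intro U _
      simp [ent_nonneg]
  | insert a A ha ih =>
    obtain ⟨w, hw1, hw2, hw3⟩ := ih
    have hsub := sub_submod (c := c) (U := A) (V := {a}) (B := B)
    have hAa : A ∪ {a} = insert a A := by
      ext x; simp [or_comm]
    have hAi : A ∩ {a} = ∅ := by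
      ext x; simp only [Finset.mem_inter, Finset.mem_singleton, Finset.notMem_empty, iff_false]
      rintro ⟨h1, rfl⟩; exact ha h1
    rw [hAa, hAi, ent_sub_empty] at hsub
    have hmono : ent B (sub c A) ≤ ent B (sub c (insert a A)) :=
      ent_mono (det_sub (Finset.subset_insert a A))
    refine ⟨fun i => if i = a then ent B (sub c (insert a A)) - ent B (sub c A) else w i,
      ?_, ?_, ?_⟩
    · intro i
      by_cases hi : i = a
      · subst hi
        simp only [if_true]
        constructor <;> linarith
      · simp only [hi, if_false]
        exact hw1 i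
    · rw [Finset.sum_insert ha]
      have : ∑ x ∈ A, (if x = a then ent B (sub c (insert a A)) - ent B (sub c A) else w x) =
          ∑ x ∈ A, w x := by
        apply Finset.sum_congr rfl
        intro x hx
        have : x ≠ a := fun h => ha (h ▸ hx)
        simp [this]
      rw [this, hw2]
      simp
    · intro U hU
      by_cases haU : a ∈ U
      · have hU' : U.erase a ⊆ A := by
          intro x hx
          have h1 := Finset.mem_erase.mp hx
          exact (Finset.mem_insert.mp (hU h1.2)).resolve_left h1.1
        have h1 := hw3 _ hU'
        have h2 := sub_submod (c := c) (U := U) (V := A) (B := B)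
        have h3 : U ∪ A = insert a A := by
          ext x
          simp only [Finset.mem_union, Finset.mem_insert]
          constructor
          · rintro (h | h)
            · exact Finset.mem_insert.mp (hU h)
            · exact Or.inr h
          · rintro (h | h)
            · exact Or.inl (h ▸ haU)
            · exact Or.inr h
        have h4 : U ∩ A = U.erase a := by
          ext x
          simp only [Finset.mem_inter, Finset.mem_erase]
          constructor
          · rintro ⟨h, h'⟩
            exact ⟨fun hh => ha (hh ▸ h'), h⟩
          · rintro ⟨h, h'⟩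
            exact ⟨h', (Finset.mem_insert.mp (hU h')).resolve_left h⟩
        rw [h3, h4] at h2
        rw [← Finset.insert_erase haU, Finset.sum_insert (Finset.notMem_erase a U)]
        have : ∑ x ∈ U.erase a, (if x = a then ent B (sub c (insert a A)) - ent B (sub c A)
            else w x) = ∑ x ∈ U.erase a, w x := by
          apply Finset.sum_congr rfl
          intro x hx
          have : x ≠ a := (Finset.mem_erase.mp hx).1
          simp [this]
        rw [this, Finset.insert_erase haU]
        simp only [if_true]
        linarith
      · have hU' : U ⊆ A := by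
          intro x hx
          exact (Finset.mem_insert.mp (hU hx)).resolve_left (fun h => haU (h ▸ hx))
        have : ∑ x ∈ U, (if x = a then ent B (sub c (insert a A)) - ent B (sub c A)
            else w x) = ∑ x ∈ U, w x := by
          apply Finset.sum_congr rfl
          intro x hx
          have : x ≠ a := fun h => haU (h ▸ hx)
          simp [this]
        rw [this]
        exact hw3 U hU'

end Pool.Agent.Lib.MP09a217
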