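import Pool.Agent.Lib.MP_09a217_co.Asym

set_option autoImplicit false

/-! Consequences of the upper bound for the number of bent functions. -/

namespace Pool.Agent.Lib.MP09a217

open Finset

lemma bent_iff {n : ℕ} (f : (Fin n → ZMod 2) → ZMod 2) :
    Bent f ↔ ∀ a : Fin n → ZMod 2,
      (∑ x : Fin n → ZMod 2, (-1 : ℤ) ^ ((f x + ∑ i, a i * x i).val)) ^ 2 = 2 ^ n := Iff.rfl

lemma ncard_bent (k : ℕ) :
    {f : (Fin (2 * k) → ZMod 2) → ZMod 2 | ∀ a : Fin (2 * k) → ZMod 2,
      (∑ x : Fin (2 * k) → ZMod 2, (-1 : ℤ) ^ ((f x + ∑ i, a i * x i).val)) ^ 2 =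
        2 ^ (2 * k)}.ncard = (BF k).card := by
  classical
  rw [← Set.ncard_coe_finset]
  congr 1
  ext f
  simp only [Set.mem_setOf_eq, Finset.mem_coe, mem_BF]
  exact (bent_iff f).symm

/-- The bound in the form `log |B| ≤ log 2 * eps * 2^(2k)`. -/
lemma log_card_le {k : ℕ} (hk : 2 ≤ k) {eps : ℝ} (h : 5 * Real.sqrt (Real.log k / k) ≤ eps) :
    Real.log (BF k).card ≤ Real.log 2 * (eps * 2 ^ (2 * k)) := by
  have hlog2 : 0 < Real.log 2 := Real.log_pos (by norm_num)
  refine (main_bound k hk).trans ?_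
  apply mul_le_mul_of_nonneg_left _ hlog2.le
  exact mul_le_mul_of_nonneg_right h (by positivity)

lemma sqrt_4096 : 5 * Real.sqrt (Real.log (4096 : ℕ) / (4096 : ℕ)) ≤ 0.24 := by
  have h1 : Real.log (4096 : ℕ) = 12 * Real.log 2 := by
    have : ((4096 : ℕ) : ℝ) = 2 ^ 12 := by norm_num
    rw [this, Real.log_pow]
    norm_num
  rw [h1]
  have h2 := Real.log_two_lt_d9
  have h3 : Real.sqrt (12 * Real.log 2 / (4096 : ℕ)) ≤ 0.048 := by
    apply Real.sqrt_le_iff.mpr
    constructor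
    · norm_num
    · push_cast
      rw [div_le_iff₀ (by norm_num)]
      linarith
  linarith

/-- In `8192` variables there are fewer than `2 ^ 2 ^ 8190` bent functions. -/
lemma log_card_4096 : Real.log (BF 4096).card ≤ Real.log 2 * (0.24 * 2 ^ (2 * 4096)) :=
  log_card_le (by norm_num) sqrt_4096

end Pool.Agent.Lib.MP09a217
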