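import Pool.Agent.Lib.MP_09a217_co.Bent

set_option autoImplicit false

/-! The weight inequality for the set of bent functions. -/

namespace Pool.Agent.Lib.MP09a217

open Finset

variable {n : ℕ}

/-- Coefficient of the monomial `I` in the algebraic normal form. -/
def cf (I : Finset (Fin n)) (f : (Fin n → ZMod 2) → ZMod 2) : ZMod 2 := ∑ u ∈ K I, f u

/-- Coordinates of `x` outside `T` set to zero. -/
def cut (T : Finset (Fin n)) (x : Fin n → ZMod 2) : Fin n → ZMod 2 :=
  fun i => if i ∈ T then x i else 0

lemma cut_mem (T : Finset (Fin n)) (x : Fin n → ZMod 2) : cut T x ∈ K T := by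
  rw [mem_K]
  intro i hi
  simp [cut, hi]

lemma cf_eq {S I : Finset (Fin n)} (h : S ⊆ I) (f : (Fin n → ZMod 2) → ZMod 2) :
    cf I f = ∑ v ∈ K (I \ S), D S f v := by
  unfold cf D
  rw [← Finset.sum_product']
  symm
  apply Finset.sum_bij' (fun p _ => p.1 + p.2) (fun x _ => (cut (I \ S) x, cut S x))
  · intro p hp
    rw [Finset.mem_product, mem_K, mem_K] at hp
    rw [mem_K]
    intro i hi
    have h1 : i ∉ I \ S := fun hh => hi (Finset.mem_sdiff.mp hh).1
    have h2 : i ∉ S := fun hh => hi (h hh)
    simp [hp.1 i h1, hp.2 i h2]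
  · intro x _
    rw [Finset.mem_product]
    exact ⟨cut_mem _ _, cut_mem _ _⟩
  · intro p hp
    rw [Finset.mem_product, mem_K, mem_K] at hp
    ext i
    · by_cases hi : i ∈ I \ S
      · have h2 : i ∉ S := (Finset.mem_sdiff.mp hi).2
        simp only [cut, if_pos hi, Pi.add_apply, hp.2 i h2, add_zero]
      · simp only [cut, if_neg hi, hp.1 i hi]
    · by_cases hi : i ∈ S
      · have h2 : i ∉ I \ S := fun hh => (Finset.mem_sdiff.mp hh).2 hi
        simp only [cut, if_pos hi, Pi.add_apply, hp.1 i h2, zero_add]
      · simp only [cut, if_neg hi, hp.2 i hi]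
  · intro x hx
    rw [mem_K] at hx
    funext i
    by_cases hi : i ∈ S
    · have h2 : i ∉ I \ S := fun hh => (Finset.mem_sdiff.mp hh).2 hi
      simp [cut, hi]
    · by_cases hI : i ∈ I
      · simp [cut, hi, hI]
      · simp [cut, hi, hI, hx i hI]
  · intro p _
    rfl

lemma cf_inj {f g : (Fin n → ZMod 2) → ZMod 2} (h : ∀ I, cf I f = cf I g) : f = g := by
  classical
  have key : ∀ m : ℕ, ∀ x : Fin n → ZMod 2, (univ.filter fun i => x i ≠ 0).card = m →
      f x = g x := by
    intro m
    induction m using Nat.strong_induction_on with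
    | _ m ih =>
      intro x hx
      set J := univ.filter fun i => x i ≠ 0 with hJ
      have hxJ : x ∈ K J := by
        rw [mem_K]
        intro i hi
        by_contra hne
        exact hi (by simp [hJ, hne])
      have h1 := h J
      unfold cf at h1
      rw [← Finset.add_sum_erase _ _ hxJ, ← Finset.add_sum_erase (K J) g hxJ] at h1
      have h2 : ∑ u ∈ (K J).erase x, f u = ∑ u ∈ (K J).erase x, g u := by
        apply Finset.sum_congr rfl
        intro u hu
        have hu1 := Finset.mem_erase.mp hu
        have hu2 := mem_K.mp hu1.2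
        apply ih (univ.filter fun i => u i ≠ 0).card _ u rfl
        rw [← hx]
        apply Finset.card_lt_card
        rw [Finset.ssubset_iff_subset_ne]
        have hsub : (univ.filter fun i => u i ≠ 0) ⊆ J := by
          intro i hi
          by_contra hh
          exact (Finset.mem_filter.mp hi).2 (hu2 i hh)
        refine ⟨hsub, ?_⟩
        intro heq
        apply hu1.1
        funext i
        by_cases hi : i ∈ J
        · have h3 : u i ≠ 0 := by
            rw [← heq] at hi
            exact (Finset.mem_filter.mp hi).2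
          have h4 : x i ≠ 0 := (Finset.mem_filter.mp hi).2
          have : ∀ s t : ZMod 2, s ≠ 0 → t ≠ 0 → s = t := by decide
          exact this _ _ h3 h4
        · rw [hu2 i hi]
          have : ¬ x i ≠ 0 := fun hh => hi (by simp [hJ, hh])
          exact (not_not.mp this).symm
      rw [h2] at h1
      exact add_right_cancel h1
  funext x
  exact key _ x rfl

/-- Permutation of the variables. -/
def perm (σ : Equiv.Perm (Fin n)) (f : (Fin n → ZMod 2) → ZMod 2) (x : Fin n → ZMod 2) : ZMod 2 :=
  f (fun i => x (σ i))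

lemma W_perm (σ : Equiv.Perm (Fin n)) (f : (Fin n → ZMod 2) → ZMod 2) (y : Fin n → ZMod 2) :
    W (perm σ f) y = W f (fun i => y (σ i)) := by
  unfold W perm
  apply Finset.sum_bij' (fun x _ => fun i => x (σ i)) (fun x _ => fun i => x (σ.symm i))
  · intro x _; simp
  · intro x _; simp
  · intro x _; funext i; simp
  · intro x _; funext i; simp
  · intro x _
    congr 2
    exact (Equiv.sum_comp σ (fun i => y i * x i)).symm

lemma bent_perm {σ : Equiv.Perm (Fin n)} {f : (Fin n → ZMod 2) → ZMod 2} (hf : Bent f) :
    Bent (perm σ f) := by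
  intro y
  rw [W_perm]
  exact hf _

lemma D_perm {σ : Equiv.Perm (Fin n)} {S T : Finset (Fin n)} (h : ∀ i, i ∈ T ↔ σ i ∈ S)
    (f : (Fin n → ZMod 2) → ZMod 2) (x : Fin n → ZMod 2) :
    D S (perm σ f) x = D T f (fun i => x (σ i)) := by
  unfold D perm
  apply Finset.sum_bij' (fun u _ => fun i => u (σ i)) (fun u _ => fun i => u (σ.symm i))
  · intro u hu
    rw [mem_K] at *
    intro i hi
    exact hu _ (fun hh => hi ((h i).mpr hh))
  · intro u hu
    rw [mem_K] at *
    intro i hi
    apply hu
    intro hh
    have := (h _).mp hh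
    simp at this
    exact hi this
  · intro u _; funext i; simp
  · intro u _; funext i; simp
  · intro u _
    rfl

lemma ent_D_card {k : ℕ} {S T : Finset (Fin (2 * k))} (h : T.card = S.card) :
    ent (BF k) (D T) = ent (BF k) (D S) := by
  classical
  let e : {x // x ∈ T} ≃ {x // x ∈ S} := Finset.equivOfCardEq h
  let σ : Equiv.Perm (Fin (2 * k)) := e.extendSubtype
  have hσ : ∀ i, i ∈ T ↔ σ i ∈ S := by
    intro i
    constructor
    · intro hi
      exact e.extendSubtype_mem i hi
    · intro hi
      by_contra hh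
      exact e.extendSubtype_not_mem i hh hi
  have h1 : ent (BF k) (fun f => D S (perm σ f)) = ent (BF k) (D S) := by
    apply ent_comp (X := D S) (σ := perm σ)
    · intro f hf
      rw [mem_BF] at *
      exact bent_perm hf
    · intro f _ g _ hh
      funext x
      have := congrFun hh (fun i => x (σ.symm i))
      simpa [perm] using this
  rw [← h1]
  apply ent_congr
  · intro f _ g _ hh
    funext x
    change D S (perm σ f) x = D S (perm σ g) x
    rw [D_perm hσ, D_perm hσ, hh]
  · intro f _ g _ hh
    funext x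
    have := congrFun hh (fun i => x (σ.symm i))
    change D S (perm σ f) _ = D S (perm σ g) _ at this
    rw [D_perm hσ, D_perm hσ] at this
    simpa using this

/-- The first `j` coordinates. -/
def pre (n j : ℕ) : Finset (Fin n) := univ.filter fun i => i.val < j

lemma card_pre {n j : ℕ} (h : j ≤ n) : (pre n j).card = j := by
  unfold pre
  rw [Fin.card_filter_val_lt]
  exact min_eq_right h

lemma pre_succ {n j : ℕ} (h : j < n) : pre n (j + 1) = insert ⟨j, h⟩ (pre n j) := by
  ext i
  simp only [pre, Finset.mem_filter, Finset.mem_univ, true_and, Finset.mem_insert, Fin.ext_iff]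
  omega

lemma not_mem_pre {n j : ℕ} (h : j < n) : (⟨j, h⟩ : Fin n) ∉ pre n j := by
  simp [pre]

/-- Entropy of the derivative of order `j`. -/
noncomputable def dd (k j : ℕ) : ℝ := ent (BF k) (D (pre (2 * k) j))

/-- Entropy of the restriction to a flat of codimension `j`. -/
noncomputable def ee (k j : ℕ) : ℝ := ent (BF k) (Rs (pre (2 * k) j) 0)

lemma ee_step {k j : ℕ} (h : j < 2 * k) : ee k j + dd k (j + 1) ≤ 2 * ee k (j + 1) := by
  unfold ee dd
  rw [pre_succ h]
  exact ent_step (not_mem_pre h)

lemma ee_chain {k : ℕ} : ∀ J, J ≤ 2 * k →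
    ee k 0 + ∑ j ∈ Finset.range J, 2 ^ j * dd k (j + 1) ≤ 2 ^ J * ee k J := by
  intro J
  induction J with
  | zero => intro _; simp
  | succ J ih =>
    intro hJ
    have h1 := ih (by omega)
    have h2 := ee_step (k := k) (j := J) (by omega)
    rw [Finset.sum_range_succ]
    have h3 : (2 : ℝ) ^ J * (ee k J + dd k (J + 1)) ≤ 2 ^ J * (2 * ee k (J + 1)) :=
      mul_le_mul_of_nonneg_left h2 (by positivity)
    rw [pow_succ]
    linarith

lemma ee_last {k : ℕ} (hB : (BF k).Nonempty) : ee k (2 * k) ≤ Real.log 2 := by
  have h := ent_le_log_card (B := BF k) hB (X := fun f => f 0)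
  have h3 : (Fintype.card (ZMod 2) : ℝ) = 2 := by simp [ZMod.card]
  rw [h3] at h
  refine le_trans ?_ h
  apply ent_mono
  intro f _ g _ hh
  rw [Rs_eq_iff]
  intro x hx
  have : x = 0 := by
    funext i
    apply hx
    simp [pre]
  rw [this]
  exact hh

lemma ee_zero {k : ℕ} (hB : (BF k).Nonempty) : ee k 0 = Real.log (BF k).card := by
  unfold ee
  apply ent_of_inj _ hB
  intro f _ g _ hh
  rw [Rs_eq_iff] at hh
  funext x
  apply hh
  intro i hi
  simp [pre] at hi

/-- The weight inequality. -/
theorem weights {k : ℕ} (hB : (BF k).Nonempty) :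
    ∃ w : Finset (Fin (2 * k)) → ℝ,
      (∀ I, 0 ≤ w I ∧ w I ≤ ent (BF k) (sub (fun I f => cf I f) {I})) ∧
      ∑ I, w I = Real.log (BF k).card ∧
      ∀ j ≤ 2 * k, ∑ I, w I * ((I.card.choose j : ℝ) / ((2 * k).choose j : ℝ)) ≤ dd k j := by
  classical
  obtain ⟨w, hw1, hw2, hw3⟩ := exists_weight (ι := Finset (Fin (2 * k)))
    (fun I f => cf I f) hB univ
  refine ⟨w, hw1, ?_, ?_⟩
  · rw [hw2]
    apply ent_of_inj _ hB
    intro f _ g _ hh
    rw [sub_eq_iff] at hh
    exact cf_inj (fun I => hh I (Finset.mem_univ I))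
  · intro j hj
    have h1 : ∀ S ∈ Finset.powersetCard j (univ : Finset (Fin (2 * k))),
        ∑ I, (if S ⊆ I then w I else 0) ≤ dd k j := by
      intro S hS
      have hSc := (Finset.mem_powersetCard.mp hS).2
      rw [← Finset.sum_filter]
      refine (hw3 (univ.filter fun I => S ⊆ I) (Finset.subset_univ _)).trans ?_
      have h2 : ent (BF k) (D S) = dd k j := by
        unfold dd
        apply ent_D_card
        rw [hSc, card_pre hj]
      rw [← h2]
      apply ent_mono
      intro f _ g _ hh
      rw [sub_eq_iff]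
      intro I hI
      have hSI := (Finset.mem_filter.mp hI).2
      change cf I f = cf I g
      rw [cf_eq hSI f, cf_eq hSI g, hh]
    have h2 := Finset.sum_le_sum h1
    rw [Finset.sum_comm, Finset.sum_const, Finset.card_powersetCard, Finset.card_univ,
      Fintype.card_fin, nsmul_eq_mul] at h2
    have h3 : ∀ I : Finset (Fin (2 * k)),
        ∑ S ∈ Finset.powersetCard j (univ : Finset (Fin (2 * k))), (if S ⊆ I then w I else 0) =
        (I.card.choose j : ℝ) * w I := by
      intro I
      rw [← Finset.sum_filter, Finset.sum_const, nsmul_eq_mul]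
      congr 2
      rw [← Finset.card_powersetCard]
      congr 1
      ext S
      simp only [Finset.mem_filter, Finset.mem_powersetCard, Finset.subset_univ, true_and]
      tauto
    simp only [h3] at h2
    have h4 : (0 : ℝ) < ((2 * k).choose j : ℝ) := by
      exact_mod_cast Nat.choose_pos hj
    have h5 : ∑ I, w I * ((I.card.choose j : ℝ) / ((2 * k).choose j : ℝ)) =
        (∑ I, (I.card.choose j : ℝ) * w I) / ((2 * k).choose j : ℝ) := by
      rw [Finset.sum_div]
      apply Finset.sum_congr rfl
      intro I _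
      ring
    rw [h5, div_le_iff₀ h4]
    linarith

end Pool.Agent.Lib.MP09a217
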