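import Mathlib

set_option autoImplicit false

/-! Shannon entropy (natural logarithm) of a function X on a finite set B with the
uniform distribution, and its basic inequalities. -/

namespace Pool.Agent.Lib.MP09a217

open Finset

variable {Ω : Type*}

/-- Number of elements of `B` on which `X` takes the same value as at `ω`. -/
noncomputable def fib {α : Type*} (B : Finset Ω) (X : Ω → α) (ω : Ω) : ℕ := by
  classical exact (B.filter fun ω' => X ω' = X ω).card

/-- Entropy of `X` under the uniform distribution on `B` (natural logarithm). -/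
noncomputable def ent {α : Type*} (B : Finset Ω) (X : Ω → α) : ℝ :=
  (∑ ω ∈ B, Real.log ((B.card : ℝ) / (fib B X ω : ℝ))) / (B.card : ℝ)

lemma fib_pos {α : Type*} {B : Finset Ω} {X : Ω → α} {ω : Ω} (h : ω ∈ B) :
    0 < fib B X ω := by
  classical
  unfold fib
  apply Finset.card_pos.mpr
  exact ⟨ω, by simp [h]⟩

lemma fib_le {α : Type*} {B : Finset Ω} {X : Ω → α} {ω : Ω} : fib B X ω ≤ B.card := by
  classical
  unfold fib
  exact Finset.card_le_card (Finset.filter_subset _ _)

lemma fib_eq_sum {α : Type*} {B : Finset Ω} {X : Ω → α} {ω : Ω} [DecidableEq α] :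
    (fib B X ω : ℝ) = ∑ ω' ∈ B, if X ω' = X ω then (1 : ℝ) else 0 := by
  classical
  unfold fib
  rw [Finset.card_filter]
  push_cast
  apply Finset.sum_congr rfl
  intro x _
  by_cases h : X x = X ω <;> simp [h]

/-- `X` determines `Y` on `B`. -/
def Det {α β : Type*} (B : Finset Ω) (X : Ω → α) (Y : Ω → β) : Prop :=
  ∀ ω ∈ B, ∀ ω' ∈ B, X ω = X ω' → Y ω = Y ω'

lemma fib_mono {α β : Type*} {B : Finset Ω} {X : Ω → α} {Y : Ω → β} (h : Det B X Y)
    {ω : Ω} (hω : ω ∈ B) : fib B X ω ≤ fib B Y ω := by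
  classical
  unfold fib
  apply Finset.card_le_card
  intro x hx
  simp only [Finset.mem_filter] at hx ⊢
  exact ⟨hx.1, h x hx.1 ω hω hx.2⟩

/-- Monotonicity: if `X` determines `Y` then the entropy of `Y` is at most that of `X`. -/
lemma ent_mono {α β : Type*} {B : Finset Ω} {X : Ω → α} {Y : Ω → β} (h : Det B X Y) :
    ent B Y ≤ ent B X := by
  unfold ent
  apply div_le_div_of_nonneg_right _ (Nat.cast_nonneg _)
  apply Finset.sum_le_sum
  intro ω hω
  have h1 : (0 : ℝ) < fib B X ω := by exact_mod_cast fib_pos hω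
  have h2 : (0 : ℝ) < fib B Y ω := by exact_mod_cast fib_pos hω
  have h3 : (fib B X ω : ℝ) ≤ fib B Y ω := by exact_mod_cast fib_mono h hω
  have h4 : (0 : ℝ) < B.card := by exact_mod_cast Finset.card_pos.mpr ⟨ω, hω⟩
  apply Real.log_le_log (by positivity)
  exact div_le_div_of_nonneg_left h4.le h1 h3

lemma ent_congr {α β : Type*} {B : Finset Ω} {X : Ω → α} {Y : Ω → β} (h : Det B X Y)
    (h' : Det B Y X) : ent B X = ent B Y := le_antisymm (ent_mono h') (ent_mono h)

lemma ent_nonneg {α : Type*} {B : Finset Ω} {X : Ω → α} : 0 ≤ ent B X := by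
  unfold ent
  apply div_nonneg _ (Nat.cast_nonneg _)
  apply Finset.sum_nonneg
  intro ω hω
  apply Real.log_nonneg
  have h1 : (0 : ℝ) < fib B X ω := by exact_mod_cast fib_pos hω
  rw [le_div_iff₀ h1]
  have : (fib B X ω : ℝ) ≤ B.card := by exact_mod_cast fib_le
  linarith

/-- Invariance under a bijection of `B`. -/
lemma ent_comp {α : Type*} {B : Finset Ω} {X : Ω → α} {σ : Ω → Ω}
    (hσ : ∀ ω ∈ B, σ ω ∈ B) (hinj : ∀ ω ∈ B, ∀ ω' ∈ B, σ ω = σ ω' → ω = ω') :
    ent B (fun ω => X (σ ω)) = ent B X := by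
  classical
  have himg : B.image σ = B := by
    apply Finset.eq_of_subset_of_card_le
    · intro x hx
      obtain ⟨y, hy, rfl⟩ := Finset.mem_image.mp hx
      exact hσ y hy
    · rw [Finset.card_image_of_injOn]
      intro a ha b hb hab
      exact hinj a ha b hb hab
  have hfib : ∀ ω ∈ B, fib B (fun ω => X (σ ω)) ω = fib B X (σ ω) := by
    intro ω _
    unfold fib
    apply Finset.card_bij (fun a _ => σ a)
    · intro a ha
      simp only [Finset.mem_filter] at ha ⊢
      exact ⟨hσ a ha.1, ha.2⟩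
    · intro a ha b hb hab
      simp only [Finset.mem_filter] at ha hb
      exact hinj a ha.1 b hb.1 hab
    · intro b hb
      simp only [Finset.mem_filter] at hb
      have hb1 : b ∈ B.image σ := by rw [himg]; exact hb.1
      obtain ⟨a, ha, rfl⟩ := Finset.mem_image.mp hb1
      exact ⟨a, by simp only [Finset.mem_filter]; exact ⟨ha, hb.2⟩, rfl⟩
  unfold ent
  congr 1
  calc ∑ ω ∈ B, Real.log ((B.card : ℝ) / (fib B (fun ω => X (σ ω)) ω : ℝ))
      = ∑ ω ∈ B, Real.log ((B.card : ℝ) / (fib B X (σ ω) : ℝ)) := by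
        apply Finset.sum_congr rfl
        intro ω hω
        rw [hfib ω hω]
    _ = ∑ ω ∈ B.image σ, Real.log ((B.card : ℝ) / (fib B X ω : ℝ)) := by
        rw [Finset.sum_image]
        intro a ha b hb hab
        exact hinj a ha b hb hab
    _ = ∑ ω ∈ B, Real.log ((B.card : ℝ) / (fib B X ω : ℝ)) := by rw [himg]

lemma fib_eq {α : Type*} [DecidableEq α] {B : Finset Ω} {X : Ω → α} {ω : Ω} :
    fib B X ω = (B.filter fun ω' => X ω' = X ω).card := by
  have h : (fib B X ω : ℝ) = ((B.filter fun ω' => X ω' = X ω).card : ℝ) := by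
    rw [fib_eq_sum, Finset.card_filter]
    push_cast
    rfl
  exact_mod_cast h

lemma sum_inv_fib_eq {α : Type*} [DecidableEq α] {B : Finset Ω} {X : Ω → α} :
    ∑ ω ∈ B, (1 : ℝ) / (fib B X ω : ℝ) = ((B.image X).card : ℝ) := by
  rw [← Finset.sum_fiberwise_of_maps_to (g := X) (t := B.image X)
    (fun x hx => Finset.mem_image_of_mem X hx)]
  have : ∀ b ∈ B.image X, ∑ ω ∈ B.filter (fun x => X x = b), (1 : ℝ) / (fib B X ω : ℝ) = 1 := by
    intro b hb
    obtain ⟨a, ha, hab⟩ := Finset.mem_image.mp hb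
    have h1 : ∀ ω ∈ B.filter (fun x => X x = b),
        (1 : ℝ) / (fib B X ω : ℝ) = 1 / ((B.filter (fun x => X x = b)).card : ℝ) := by
      intro ω hω
      have h2 := (Finset.mem_filter.mp hω).2
      rw [fib_eq, h2]
    rw [Finset.sum_congr rfl h1, Finset.sum_const, nsmul_eq_mul]
    have h3 : ((B.filter (fun x => X x = b)).card : ℝ) ≠ 0 := by
      have : a ∈ B.filter (fun x => X x = b) := by simp [ha, hab]
      exact_mod_cast (Finset.card_pos.mpr ⟨a, this⟩).ne'
    field_simp
  rw [Finset.sum_congr rfl this]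
  simp

/-- A variable with values in a type with `k` elements has entropy at most `log k`. -/
lemma ent_le_log_card {α : Type*} [Fintype α] {B : Finset Ω} (hB : B.Nonempty)
    {X : Ω → α} : ent B X ≤ Real.log (Fintype.card α) := by
  classical
  obtain ⟨ω0, hω0⟩ := hB
  have hBp : (0 : ℝ) < B.card := by exact_mod_cast Finset.card_pos.mpr ⟨ω0, hω0⟩
  have hk : (0 : ℝ) < Fintype.card α := by
    exact_mod_cast Fintype.card_pos_iff.mpr ⟨X ω0⟩
  have key : ∀ ω ∈ B, Real.log ((B.card : ℝ) / (fib B X ω : ℝ)) ≤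
      Real.log (Fintype.card α) + ((B.card : ℝ) / (Fintype.card α) * (1 / (fib B X ω : ℝ)) - 1) := by
    intro ω hω
    have h1 : (0 : ℝ) < fib B X ω := by exact_mod_cast fib_pos hω
    have h2 : (B.card : ℝ) / (fib B X ω : ℝ) =
        (Fintype.card α) * ((B.card : ℝ) / (Fintype.card α) * (1 / (fib B X ω : ℝ))) := by
      field_simp
    have h3 : (0 : ℝ) < (B.card : ℝ) / (Fintype.card α) * (1 / (fib B X ω : ℝ)) := by positivity
    rw [h2, Real.log_mul hk.ne' h3.ne']
    have := Real.log_le_sub_one_of_pos h3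
    linarith
  unfold ent
  rw [div_le_iff₀ hBp]
  calc ∑ ω ∈ B, Real.log ((B.card : ℝ) / (fib B X ω : ℝ))
      ≤ ∑ ω ∈ B, (Real.log (Fintype.card α) +
          ((B.card : ℝ) / (Fintype.card α) * (1 / (fib B X ω : ℝ)) - 1)) :=
        Finset.sum_le_sum key
    _ = B.card * Real.log (Fintype.card α) +
          ((B.card : ℝ) / (Fintype.card α) * ((B.image X).card : ℝ) - B.card) := by
        rw [Finset.sum_add_distrib, Finset.sum_sub_distrib, ← Finset.mul_sum, sum_inv_fib_eq]
        simp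
    _ ≤ Real.log (Fintype.card α) * B.card := by
        have h4 : ((B.image X).card : ℝ) ≤ Fintype.card α := by
          exact_mod_cast Finset.card_le_univ _
        have h5 : (B.card : ℝ) / (Fintype.card α) * ((B.image X).card : ℝ) ≤ B.card := by
          rw [div_mul_eq_mul_div, div_le_iff₀ hk]
          exact mul_le_mul_of_nonneg_left h4 hBp.le
        linarith

/-- The entropy of an injective variable is `log |B|`. -/
lemma ent_of_inj {α : Type*} {B : Finset Ω} {X : Ω → α}
    (h : ∀ ω ∈ B, ∀ ω' ∈ B, X ω = X ω' → ω = ω') (hB : B.Nonempty) :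
    ent B X = Real.log B.card := by
  classical
  have hBp : (0 : ℝ) < B.card := by exact_mod_cast hB.card_pos
  have h1 : ∀ ω ∈ B, Real.log ((B.card : ℝ) / (fib B X ω : ℝ)) = Real.log B.card := by
    intro ω hω
    have : fib B X ω = 1 := by
      rw [fib_eq, Finset.card_eq_one]
      refine ⟨ω, ?_⟩
      ext x
      simp only [Finset.mem_filter, Finset.mem_singleton]
      constructor
      · rintro ⟨hx, hx'⟩
        exact h x hx ω hω hx'
      · rintro rfl
        exact ⟨hω, rfl⟩
    rw [this]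
    simp
  unfold ent
  rw [Finset.sum_congr rfl h1, Finset.sum_const, nsmul_eq_mul]
  field_simp

/-- Submodularity: if `X` and `Y` both determine `Z` then
`H(X,Y) + H(Z) ≤ H(X) + H(Y)`. -/
lemma ent_submod {α β γ : Type*} {B : Finset Ω} {X : Ω → α} {Y : Ω → β} {Z : Ω → γ}
    (hX : Det B X Z) (hY : Det B Y Z) :
    ent B (fun ω => (X ω, Y ω)) + ent B Z ≤ ent B X + ent B Y := by
  classical
  rcases B.eq_empty_or_nonempty with rfl | hB
  · simp [ent]
  have hBp : (0 : ℝ) < B.card := by exact_mod_cast hB.card_pos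
  set XY : Ω → α × β := fun ω => (X ω, Y ω) with hXY
  have main : ∑ ω ∈ B, ((fib B X ω : ℝ) * fib B Y ω) / ((fib B XY ω : ℝ) * fib B Z ω)
      ≤ B.card := by
    have e1 : ∀ ω ∈ B, ((fib B X ω : ℝ) * fib B Y ω) / ((fib B XY ω : ℝ) * fib B Z ω) =
        ∑ ω1 ∈ B, ∑ ω2 ∈ B, if (X ω1 = X ω ∧ Y ω2 = Y ω) then
          1 / ((fib B XY ω : ℝ) * fib B Z ω) else 0 := by
      intro ω _
      rw [fib_eq_sum (X := X), fib_eq_sum (X := Y), Finset.sum_mul_sum, Finset.sum_div]
      apply Finset.sum_congr rfl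
      intro ω1 _
      rw [Finset.sum_div]
      apply Finset.sum_congr rfl
      intro ω2 _
      by_cases h1 : X ω1 = X ω <;> by_cases h2 : Y ω2 = Y ω <;> simp [h1, h2]
    rw [Finset.sum_congr rfl e1]
    rw [Finset.sum_comm]
    have e2 : ∀ ω1 ∈ B, ∑ ω ∈ B, ∑ ω2 ∈ B, (if (X ω1 = X ω ∧ Y ω2 = Y ω) then
          1 / ((fib B XY ω : ℝ) * fib B Z ω) else 0) ≤ 1 := by
      intro ω1 hω1
      rw [Finset.sum_comm]
      have e3 : ∀ ω2 ∈ B, ∑ ω ∈ B, (if (X ω1 = X ω ∧ Y ω2 = Y ω) then
          1 / ((fib B XY ω : ℝ) * fib B Z ω) else 0) ≤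
          (if Z ω2 = Z ω1 then (1 : ℝ) else 0) / fib B Z ω1 := by
        intro ω2 hω2
        rw [← Finset.sum_filter]
        set F := B.filter (fun ω => X ω1 = X ω ∧ Y ω2 = Y ω) with hF
        rcases F.eq_empty_or_nonempty with hFe | ⟨ω3, hω3⟩
        · rw [hFe]
          simp only [Finset.sum_empty]
          positivity
        · have h3 := Finset.mem_filter.mp hω3
          have hz1 : Z ω1 = Z ω3 := hX ω1 hω1 ω3 h3.1 h3.2.1
          have hz2 : Z ω2 = Z ω3 := hY ω2 hω2 ω3 h3.1 h3.2.2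
          have h4 : ∀ ω ∈ F, 1 / ((fib B XY ω : ℝ) * fib B Z ω) =
              1 / ((F.card : ℝ) * fib B Z ω1) := by
            intro ω hω
            have h5 := Finset.mem_filter.mp hω
            have h6 : fib B XY ω = F.card := by
              rw [fib_eq, hF]
              congr 1
              ext x
              simp only [Finset.mem_filter, hXY, Prod.mk.injEq]
              constructor
              · rintro ⟨hx, hx1, hx2⟩
                exact ⟨hx, by rw [hx1]; exact h5.2.1, by rw [hx2]; exact h5.2.2⟩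
              · rintro ⟨hx, hx1, hx2⟩
                exact ⟨hx, by rw [← hx1]; exact h5.2.1, by rw [← hx2]; exact h5.2.2⟩
            have h7 : fib B Z ω = fib B Z ω1 := by
              rw [fib_eq, fib_eq]
              have : Z ω1 = Z ω := hX ω1 hω1 ω h5.1 h5.2.1
              rw [this]
            rw [h6, h7]
          rw [Finset.sum_congr rfl h4, Finset.sum_const, nsmul_eq_mul]
          have h8 : (F.card : ℝ) ≠ 0 := by
            exact_mod_cast (Finset.card_pos.mpr ⟨ω3, hω3⟩).ne'
          rw [if_pos (hz2.trans hz1.symm)]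
          have h9 : (0 : ℝ) < fib B Z ω1 := by exact_mod_cast fib_pos hω1
          apply le_of_eq
          field_simp
      refine (Finset.sum_le_sum e3).trans ?_
      rw [← Finset.sum_div, ← fib_eq_sum]
      have h9 : (0 : ℝ) < fib B Z ω1 := by exact_mod_cast fib_pos hω1
      rw [div_self h9.ne']
    refine (Finset.sum_le_sum e2).trans ?_
    simp
  have key : ∀ ω ∈ B, Real.log ((B.card : ℝ) / (fib B XY ω : ℝ)) +
      Real.log ((B.card : ℝ) / (fib B Z ω : ℝ)) - Real.log ((B.card : ℝ) / (fib B X ω : ℝ)) -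
      Real.log ((B.card : ℝ) / (fib B Y ω : ℝ)) ≤
      ((fib B X ω : ℝ) * fib B Y ω) / ((fib B XY ω : ℝ) * fib B Z ω) - 1 := by
    intro ω hω
    have h1 : (0 : ℝ) < fib B X ω := by exact_mod_cast fib_pos hω
    have h2 : (0 : ℝ) < fib B Y ω := by exact_mod_cast fib_pos hω
    have h3 : (0 : ℝ) < fib B XY ω := by exact_mod_cast fib_pos hω
    have h4 : (0 : ℝ) < fib B Z ω := by exact_mod_cast fib_pos hω
    have h5 : (0 : ℝ) < ((fib B X ω : ℝ) * fib B Y ω) / ((fib B XY ω : ℝ) * fib B Z ω) := by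
      positivity
    have := Real.log_le_sub_one_of_pos h5
    rw [Real.log_div (by positivity) (by positivity), Real.log_mul h1.ne' h2.ne',
      Real.log_mul h3.ne' h4.ne'] at this
    rw [Real.log_div hBp.ne' h1.ne', Real.log_div hBp.ne' h2.ne', Real.log_div hBp.ne' h3.ne',
      Real.log_div hBp.ne' h4.ne']
    linarith
  have sum1 := Finset.sum_le_sum key
  simp only [Finset.sum_sub_distrib, Finset.sum_add_distrib] at sum1
  have h6 : (∑ ω ∈ B, Real.log ((B.card : ℝ) / (fib B XY ω : ℝ))) +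
      ∑ ω ∈ B, Real.log ((B.card : ℝ) / (fib B Z ω : ℝ)) ≤
      (∑ ω ∈ B, Real.log ((B.card : ℝ) / (fib B X ω : ℝ))) +
      ∑ ω ∈ B, Real.log ((B.card : ℝ) / (fib B Y ω : ℝ)) := by
    have : (∑ _ω ∈ B, (1 : ℝ)) = B.card := by simp
    linarith
  unfold ent
  rw [← add_div, ← add_div]
  exact div_le_div_of_nonneg_right h6 hBp.le

end Pool.Agent.Lib.MP09a217
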